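import Pool.Agent.W897.GA.Defs
import Pool.Agent.Helper446.Comp

/-!
The finite criterion `Crit` is computable (part COMP of the project GLPA).
-/

set_option autoImplicit false

namespace Pool.Agent.W960.GA

open Encodable Pool.Agent.Helper446
open Pool.Agent.W897.GA

/-! ### closure properties of computable predicates -/

section
variable {α β γ : Type*} [Primcodable α] [Primcodable β] [Primcodable γ]

theorem cp_iff_re {p : α → Prop} : ComputablePred p ↔ REPred p ∧ REPred fun a => ¬ p a :=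
  ⟨fun h => ⟨h.to_re, h.not.to_re⟩, fun h => RE.cp_of_re h.1 h.2⟩

theorem cp_of_iff {p q : α → Prop} (hp : ComputablePred p) (h : ∀ a, q a ↔ p a) :
    ComputablePred q := by
  have : q = p := funext fun a => propext (h a)
  rw [this]; exact hp

theorem cp_not {p : α → Prop} (hp : ComputablePred p) : ComputablePred fun a => ¬ p a := hp.not

theorem cp_and {p q : α → Prop} (hp : ComputablePred p) (hq : ComputablePred q) :
    ComputablePred fun a => p a ∧ q a := by
  rw [cp_iff_re] at hp hq ⊢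
  refine ⟨RE.and hp.1 hq.1, (RE.or hp.2 hq.2).of_eq fun a => ?_⟩
  tauto

theorem cp_imp {p q : α → Prop} (hp : ComputablePred p) (hq : ComputablePred q) :
    ComputablePred fun a => p a → q a :=
  cp_of_iff (cp_not (cp_and hp (cp_not hq))) fun a => by tauto

theorem cp_iff {p q : α → Prop} (hp : ComputablePred p) (hq : ComputablePred q) :
    ComputablePred fun a => p a ↔ q a :=
  cp_of_iff (cp_and (cp_imp hp hq) (cp_imp hq hp)) fun a => by tauto

theorem re_ex_lt {p : α → ℕ → Prop} (hp : REPred fun x : α × ℕ => p x.1 x.2) {f : α → ℕ}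
    (hf : Computable f) : REPred fun a => ∃ i < f a, p a i := by
  have h := RE.exN (p := fun (a : α) i => i < f a ∧ p a i)
    (RE.and (RE.lt (by fun_prop) (by fun_prop)) hp)
  exact h

theorem cp_all_lt {p : α → ℕ → Prop} (hp : ComputablePred fun x : α × ℕ => p x.1 x.2) {f : α → ℕ}
    (hf : Computable f) : ComputablePred fun a => ∀ i < f a, p a i := by
  rw [cp_iff_re] at hp
  refine RE.cp_of_re (RE.all_lt hp.1 hf) ((re_ex_lt (p := fun a i => ¬ p a i) hp.2 hf).of_eq
    fun a => ?_)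
  push Not
  rfl

theorem cp_ex_lt {p : α → ℕ → Prop} (hp : ComputablePred fun x : α × ℕ => p x.1 x.2) {f : α → ℕ}
    (hf : Computable f) : ComputablePred fun a => ∃ i < f a, p a i := by
  rw [cp_iff_re] at hp
  refine RE.cp_of_re (re_ex_lt hp.1 hf) ((RE.all_lt (p := fun a i => ¬ p a i) hp.2 hf).of_eq
    fun a => ?_)
  push Not
  rfl

theorem cpow {f g : α → ℕ} (hf : Computable f) (hg : Computable g) :
    Computable (fun x => f x ^ g x) := by
  have h : Primrec₂ (fun a b : ℕ => a ^ b) := Primrec₂.unpaired'.1 Nat.Primrec.pow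
  exact h.to_comp.comp hf hg

theorem cdiv {f g : α → ℕ} (hf : Computable f) (hg : Computable g) :
    Computable (fun x => f x / g x) := Primrec.nat_div.to_comp.comp hf hg

theorem cmod {f g : α → ℕ} (hf : Computable f) (hg : Computable g) :
    Computable (fun x => f x % g x) := Primrec.nat_mod.to_comp.comp hf hg

attribute [local fun_prop] cpow cdiv cmod

/-! ### the table argument -/

/-- the row `f` of a table -/
def row (g : List (List ℕ)) (f : ℕ) : List ℕ := (g[f]?).getD []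

theorem row_comp {g : α → List (List ℕ)} {f : α → ℕ} (hg : Computable g) (hf : Computable f) :
    Computable fun a => row (g a) (f a) := by
  unfold row
  have h : Computable fun a => (g a)[f a]? := by fun_prop
  exact Computable.option_getD h (Computable.const [])

theorem table {M : ℕ → ℕ} (hM : Computable M) {A : ℕ × ℕ → Prop} (hA : ComputablePred A)
    {C : ℕ × ℕ × ℕ × List ℕ → Prop} (hC : ComputablePred C) {Q : ℕ → ℕ → ℕ → Prop}
    (h0 : ∀ N p, p < M N → (Q N 0 p ↔ A (N, p)))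
    (h1 : ∀ N f p (g : List ℕ), f < N + 1 → p < M N → (∀ p' < M N, p' ∈ g ↔ Q N f p') →
      (Q N (f + 1) p ↔ C (N, f, p, g))) :
    ComputablePred fun x : ℕ × ℕ => x.2 < M x.1 ∧ Q x.1 (x.1 + 1) x.2 := by
  classical
  let Corr : ℕ → List (List ℕ) → Prop := fun N g =>
    (∀ p < M N, p ∈ row g 0 ↔ A (N, p)) ∧
    ∀ f < N + 1, ∀ p < M N, p ∈ row g (f + 1) ↔ C (N, f, p, row g f)
  have hex : ∀ N, ∃ g, Corr N g := by
    intro N
    let F : ℕ → List ℕ := fun f => (List.range (M N)).filter (fun p => decide (Q N f p))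
    have hF : ∀ f, ∀ p < M N, p ∈ F f ↔ Q N f p := by
      intro f p hp
      simp [F, hp]
    refine ⟨(List.range (N + 2)).map F, ?_, ?_⟩
    · intro p hp
      have : row ((List.range (N + 2)).map F) 0 = F 0 := by simp [row]
      rw [this, hF 0 p hp, h0 N p hp]
    · intro f hf p hp
      have e1 : row ((List.range (N + 2)).map F) f = F f := by
        have : f < N + 2 := by omega
        simp [row, List.getElem?_map, List.getElem?_range this]
      have e2 : row ((List.range (N + 2)).map F) (f + 1) = F (f + 1) := by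
        have : f + 1 < N + 2 := by omega
        simp [row, List.getElem?_map, List.getElem?_range this]
      rw [e1, e2, hF _ p hp, h1 N f p (F f) hf hp (hF f)]
  have hcorr : ∀ N g, Corr N g → ∀ f ≤ N + 1, ∀ p < M N, p ∈ row g f ↔ Q N f p := by
    intro N g hg f
    induction f with
    | zero => intro _ p hp; rw [hg.1 p hp, h0 N p hp]
    | succ f ih =>
      intro hf p hp
      rw [hg.2 f (by omega) p hp, h1 N f p (row g f) (by omega) hp (ih (by omega))]
  have cA : ComputablePred fun x : (ℕ × ℕ) × List (List ℕ) => Corr x.1.1 x.2 := by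
    refine cp_and ?_ ?_
    · refine cp_all_lt (p := fun (x : (ℕ × ℕ) × List (List ℕ)) p => p ∈ row x.2 0 ↔ A (x.1.1, p))
        ?_ (hM.comp (by fun_prop))
      refine cp_iff (RE.cp_mem (by fun_prop) (row_comp (by fun_prop) (by fun_prop))) ?_
      exact RE.cp_comp hA (f := fun x : ((ℕ × ℕ) × List (List ℕ)) × ℕ => (x.1.1.1, x.2))
        (by fun_prop)
    · refine cp_all_lt (p := fun (x : (ℕ × ℕ) × List (List ℕ)) f => ∀ p < M x.1.1,
        p ∈ row x.2 (f + 1) ↔ C (x.1.1, f, p, row x.2 f)) ?_ (by fun_prop)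
      refine cp_all_lt (p := fun (x : ((ℕ × ℕ) × List (List ℕ)) × ℕ) p =>
        p ∈ row x.1.2 (x.2 + 1) ↔ C (x.1.1.1, x.2, p, row x.1.2 x.2)) ?_ (hM.comp (by fun_prop))
      refine cp_iff (RE.cp_mem (by fun_prop) (row_comp (by fun_prop) (by fun_prop))) ?_
      have hr : Computable fun x : (((ℕ × ℕ) × List (List ℕ)) × ℕ) × ℕ => row x.1.1.2 x.1.2 :=
        row_comp (by fun_prop) (by fun_prop)
      exact RE.cp_comp hC (f := fun x : (((ℕ × ℕ) × List (List ℕ)) × ℕ) × ℕ =>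
        (x.1.1.1.1, x.1.2, x.2, row x.1.1.2 x.1.2)) (by fun_prop)
  have cB : ComputablePred fun x : (ℕ × ℕ) × List (List ℕ) =>
      x.1.2 < M x.1.1 ∧ x.1.2 ∈ row x.2 (x.1.1 + 1) :=
    cp_and (RE.cp_lt (by fun_prop) (hM.comp (by fun_prop)))
      (RE.cp_mem (by fun_prop) (row_comp (by fun_prop) (by fun_prop)))
  refine RE.cp_of_re ?_ ?_
  · refine (RE.ex (p := fun (x : ℕ × ℕ) (g : List (List ℕ)) =>
      Corr x.1 g ∧ (x.2 < M x.1 ∧ x.2 ∈ row g (x.1 + 1))) (cp_and cA cB).to_re).of_eq fun x => ?_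
    constructor
    · rintro ⟨g, hg, h2, h3⟩
      exact ⟨h2, (hcorr _ g hg _ le_rfl _ h2).1 h3⟩
    · rintro ⟨h2, h3⟩
      obtain ⟨g, hg⟩ := hex x.1
      exact ⟨g, hg, h2, (hcorr _ g hg _ le_rfl _ h2).2 h3⟩
  · refine (RE.ex (p := fun (x : ℕ × ℕ) (g : List (List ℕ)) =>
      Corr x.1 g ∧ ¬ (x.2 < M x.1 ∧ x.2 ∈ row g (x.1 + 1))) (cp_and cA (cp_not cB)).to_re).of_eq
      fun x => ?_
    constructor
    · rintro ⟨g, hg, h2⟩ ⟨h3, h4⟩
      exact h2 ⟨h3, (hcorr _ g hg _ le_rfl _ h3).2 h4⟩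
    · intro h2
      obtain ⟨g, hg⟩ := hex x.1
      exact ⟨g, hg, fun h3 => h2 ⟨h3.1, (hcorr _ g hg _ le_rfl _ h3.1).1 h3.2⟩⟩

end

/-! ### coding of finite sets -/

/-- bit `c` of `X` is one -/
def bit (X c : ℕ) : Prop := X / 2 ^ c % 2 = 1

theorem bit_iff (X c : ℕ) : bit X c ↔ X.testBit c = true := by
  rw [Nat.testBit_eq_decide_div_mod_eq]; simp [bit]

theorem bit_lt {X n c : ℕ} (h : X < 2 ^ n) (hc : bit X c) : c < n := by
  by_contra hn
  have h2 : 2 ^ n ≤ 2 ^ c := Nat.pow_le_pow_right (by norm_num) (by omega)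
  rw [bit, Nat.div_eq_of_lt (lt_of_lt_of_le h h2)] at hc
  simp at hc

theorem bit_ext {X Y : ℕ} (h : ∀ c, bit X c ↔ bit Y c) : X = Y := by
  apply Nat.eq_of_testBit_eq
  intro i
  have := h i
  rw [bit_iff, bit_iff] at this
  exact Bool.eq_iff_iff.2 this

theorem bit_ex (n : ℕ) (x : Set ℕ) (hx : ∀ c ∈ x, c < n) : ∃ X < 2 ^ n, ∀ c, bit X c ↔ c ∈ x := by
  classical
  let X : ℕ := Nat.ofBits (fun i : Fin n => decide ((i : ℕ) ∈ x))
  refine ⟨X, Nat.ofBits_lt_two_pow _, fun c => ?_⟩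
  rw [bit_iff]
  by_cases hc : c < n
  · rw [Nat.testBit_ofBits_lt _ _ hc]; simp
  · rw [Nat.testBit_ofBits_ge _ _ (by omega)]
    constructor
    · intro h; simp at h
    · intro h; exact absurd (hx c h) hc

/-- the type with code `X` -/
def T (X : ℕ) : Set ℕ := {c | bit X c}

/-- the set of types with code `S` -/
def TT (S : ℕ) : Set (Set ℕ) := {x | ∃ X, bit S X ∧ x = T X}

theorem T_inj {X Y : ℕ} (h : T X = T Y) : X = Y := bit_ext fun c => Set.ext_iff.1 h c

theorem T_mem {S X : ℕ} : T X ∈ TT S ↔ bit S X :=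
  ⟨fun ⟨Y, hY, e⟩ => by rw [T_inj e]; exact hY, fun h => ⟨X, h, rfl⟩⟩

def B (N : ℕ) : ℕ := 2 ^ (N + 1)
def BB (N : ℕ) : ℕ := 2 ^ B N

theorem T_le {N X c : ℕ} (hX : X < B N) (hc : bit X c) : c ≤ N := by
  have := bit_lt hX hc; omega

theorem TT_ex (N : ℕ) (Θ : Set (Set ℕ)) (h : ∀ x ∈ Θ, ∀ c ∈ x, c ≤ N) :
    ∃ S < BB N, TT S = Θ := by
  obtain ⟨S, hS, h2⟩ := bit_ex (B N) {X | X < B N ∧ T X ∈ Θ} fun c hc => hc.1
  refine ⟨S, hS, Set.ext fun x => ⟨?_, fun hx => ?_⟩⟩
  · rintro ⟨X, hX, rfl⟩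
    exact ((h2 X).1 hX).2
  · obtain ⟨X, hX, h3⟩ := bit_ex (N + 1) x fun c hc => by have := h x hx c hc; omega
    have e : T X = x := Set.ext h3
    exact ⟨X, (h2 X).2 ⟨hX, by rw [e]; exact hx⟩, e.symm⟩

theorem TT_le {N S : ℕ} (hS : S < BB N) {x : Set ℕ} (hx : x ∈ TT S) : ∀ c ∈ x, c ≤ N := by
  obtain ⟨X, hX, rfl⟩ := hx
  exact fun c hc => T_le (bit_lt hS hX) hc

theorem all_TT {N S : ℕ} (hS : S < BB N) {P : Set ℕ → Prop} :
    (∀ x ∈ TT S, P x) ↔ ∀ X < B N, bit S X → P (T X) := by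
  constructor
  · intro h X _ hX
    exact h _ (T_mem.2 hX)
  · rintro h x ⟨X, hX, rfl⟩
    exact h X (bit_lt hS hX) hX

theorem ex_TT {N S : ℕ} (hS : S < BB N) {P : Set ℕ → Prop} :
    (∃ x ∈ TT S, P x) ↔ ∃ X < B N, bit S X ∧ P (T X) := by
  constructor
  · rintro ⟨x, ⟨X, hX, rfl⟩, h⟩
    exact ⟨X, bit_lt hS hX, hX, h⟩
  · rintro ⟨X, _, hX, h⟩
    exact ⟨_, T_mem.2 hX, h⟩

theorem ex_sets {N : ℕ} {P : Set (Set ℕ) → Prop} (h : ∀ Θ, P Θ → ∀ x ∈ Θ, ∀ c ∈ x, c ≤ N) :
    (∃ Θ, P Θ) ↔ ∃ S < BB N, P (TT S) := by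
  constructor
  · rintro ⟨Θ, hΘ⟩
    obtain ⟨S, hS, rfl⟩ := TT_ex N Θ (h Θ hΘ)
    exact ⟨S, hS, hΘ⟩
  · rintro ⟨S, _, h⟩; exact ⟨_, h⟩

theorem all_sets {N : ℕ} {P : Set (Set ℕ) → Prop} {A : Set (Set ℕ)}
    (h : ∀ x ∈ A, ∀ c ∈ x, c ≤ N) :
    (∀ X ⊆ A, P X) ↔ ∀ S < BB N, TT S ⊆ A → P (TT S) := by
  constructor
  · intro h2 S _ hS; exact h2 _ hS
  · intro h2 X hX
    obtain ⟨S, hS, rfl⟩ := TT_ex N X fun x hx => h x (hX hx)
    exact h2 S hS hX

/-! ### the notions on codes -/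

def trivc (N k X : ℕ) : Prop := ∀ m < N + 1, k ≤ m → ∀ χ < N + 1, bc m χ ≤ N → bit X (bc m χ)

theorem triv_T (N k X : ℕ) : triv N k (T X) ↔ trivc N k X := by
  constructor
  · intro h m _ hm χ _ h2; exact h m hm χ h2
  · intro h m hm χ h2
    have h3 := bc_left m χ
    have h4 := bc_right m χ
    exact h m (by omega) hm χ (by omega) h2

def rfc (N k X : ℕ) : Prop := ∀ χ < N + 1, bit X (bc k χ) → bit X χ

theorem rf_T {N X : ℕ} (hX : X < B N) (k : ℕ) : rf k (T X) ↔ rfc N k X := by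
  constructor
  · intro h χ _ h2; exact h χ h2
  · intro h χ h2
    have h3 := T_le hX h2
    have h4 := bc_right k χ
    exact h χ (by omega) h2

def partc (N k X Y : ℕ) : Prop := ∀ χ < N + 1, (bit X (bc k χ) ↔ bit Y (bc k χ))

theorem part_T {N X Y : ℕ} (hX : X < B N) (hY : Y < B N) (k : ℕ) :
    part k (T X) = part k (T Y) ↔ partc N k X Y := by
  constructor
  · intro h χ _; exact Set.ext_iff.1 h χ
  · intro h
    ext χ
    have h4 := bc_right k χ
    constructor
    · intro h2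
      have h3 := T_le hX h2
      exact (h χ (by omega)).1 h2
    · intro h2
      have h3 := T_le hY h2
      exact (h χ (by omega)).2 h2

def tightc (N k X t : ℕ) : Prop :=
  (∀ χ < N + 1, bc k χ ≤ N → (bit t (bc k χ) ↔ ∀ x < B N, bit X x → bit x χ ∧ bit x (bc k χ))) ∧
    trivc N (k + 1) t

theorem tight_T {N X : ℕ} (hX : X < BB N) (k t : ℕ) :
    tight N k (TT X) (T t) ↔ tightc N k X t := by
  unfold tight tightc
  rw [triv_T]
  refine and_congr_left fun _ => ?_
  constructor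
  · intro h χ _ h2
    have := h χ h2
    rw [all_TT hX] at this
    exact this
  · intro h χ h2
    have h4 := bc_right k χ
    rw [all_TT hX]
    exact h χ (by omega) h2

def validc (N X : ℕ) : Prop := ¬ bit X 0 ∧
  ∀ a < N + 1, ∀ b < N + 1, ic a b ≤ N → (bit X (ic a b) ↔ (bit X a → bit X b))

theorem valid_T {N X : ℕ} (hX : X < B N) : Valid N (T X) ↔ validc N X := by
  constructor
  · rintro ⟨_, h2, h3⟩
    exact ⟨h2, fun a _ b _ h => h3 a b h⟩
  · rintro ⟨h2, h3⟩
    refine ⟨fun c hc => T_le hX hc, h2, fun a b h => ?_⟩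
    have h4 := ic_left a b
    have h5 := ic_right a b
    exact h3 a (by omega) b (by omega) h

/-- the condition of level `f + 1` for variant contexts, `G` is the table of level `f` -/
def RC (N k R L : ℕ) (G : List ℕ) : Prop :=
  (∀ X < BB N, (∀ a < B N, bit X a → bit R a) → ∃ t < B N, bit L t ∧ tightc N k X t) ∧
  (∀ x < B N, bit L x → ∀ χ < N + 1, bc k χ ≤ N → ¬ bit x (bc k χ) →
    ∃ x' < B N, bit R x' ∧ (¬ bit x' χ ∧ bit x' (bc k χ) ∧
      ∀ χ' < N + 1, bit x (bc k χ') → bit x' χ' ∧ bit x' (bc k χ'))) ∧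
  ((∃ a < B N, bit R a) → ∃ b < B N, bit R b ∧ trivc N k b) ∧
  (∀ x < B N, bit L x → ¬ trivc N (k + 1) x → ∃ R' < BB N, ∃ L' < BB N,
    (∀ y < B N, bit R' y → bit R y ∧ partc N k y x ∧ rfc N k y) ∧
    (∀ y < B N, bit L' y → bit L y ∧ partc N k y x) ∧
    (∀ y < B N, bit R' y → bit L' y) ∧ bit L' x ∧ (∃ a < B N, bit R' a) ∧
    Nat.pair R' L' ∈ G)

theorem TT_sub {N R L : ℕ} (hR : R < BB N) : TT R ⊆ TT L ↔ ∀ a < B N, bit R a → bit L a := by
  have := all_TT hR (P := fun x => x ∈ TT L)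
  simp only [T_mem] at this
  exact this

theorem TT_ne {N R : ℕ} (hR : R < BB N) : (TT R).Nonempty ↔ ∃ a < B N, bit R a := by
  have := ex_TT hR (P := fun _ => True)
  simp only [and_true] at this
  exact this

theorem RP_iff {N f k R L : ℕ} (hR : R < BB N) (hL : L < BB N) (G : List ℕ)
    (hG : ∀ R' < BB N, ∀ L' < BB N, Nat.pair R' L' ∈ G ↔ RP N f (k + 1) (TT R') (TT L')) :
    RP N (f + 1) k (TT R) (TT L) ↔ RC N k R L G := by
  unfold RC
  rw [RP]
  refine and_congr ?_ (and_congr ?_ (and_congr ?_ ?_))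
  · rw [all_sets (N := N) (fun x hx => TT_le hR hx)]
    refine forall_congr' fun X => forall_congr' fun hX => ?_
    rw [TT_sub hX, ex_TT hL]
    refine imp_congr_right fun _ => exists_congr fun t => ?_
    rw [tight_T hX]
  · rw [all_TT hL]
    refine forall_congr' fun x => forall_congr' fun hx => imp_congr_right fun _ => ?_
    constructor
    · intro h χ _ h1 h2
      obtain ⟨x', hx', h3, h4, h5⟩ := h χ h1 h2
      obtain ⟨X', hX', rfl⟩ := hx'
      exact ⟨X', bit_lt hR hX', hX', h3, h4, fun χ' _ h6 => h5 χ' h6⟩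
    · intro h χ h1 h2
      have h0 := bc_right k χ
      obtain ⟨x', _, hx', h3, h4, h5⟩ := h χ (by omega) h1 h2
      refine ⟨T x', T_mem.2 hx', h3, h4, fun χ' h6 => ?_⟩
      have h7 := T_le hx h6
      have h8 := bc_right k χ'
      exact h5 χ' (by omega) h6
  · rw [TT_ne hR, ex_TT hR]
    refine imp_congr_right fun _ => exists_congr fun t => ?_
    rw [triv_T]
  · rw [all_TT hL]
    refine forall_congr' fun x => forall_congr' fun hx => imp_congr_right fun _ => ?_
    rw [triv_T]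
    refine imp_congr_right fun _ => ?_
    constructor
    · rintro ⟨R', L', h1, h2, h3, h4, h5, h6⟩
      obtain ⟨R', hR', rfl⟩ := TT_ex N R' fun y hy => TT_le hR (h1 y hy).1
      obtain ⟨L', hL', rfl⟩ := TT_ex N L' fun y hy => TT_le hL (h2 y hy).1
      refine ⟨R', hR', L', hL', ?_, ?_, (TT_sub hR').1 h3, T_mem.1 h4, (TT_ne hR').1 h5,
        (hG R' hR' L' hL').2 h6⟩
      · intro y hy hy2
        obtain ⟨a1, a2, a3⟩ := h1 (T y) (T_mem.2 hy2)
        exact ⟨T_mem.1 a1, (part_T hy hx k).1 a2, (rf_T hy k).1 a3⟩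
      · intro y hy hy2
        obtain ⟨a1, a2⟩ := h2 (T y) (T_mem.2 hy2)
        exact ⟨T_mem.1 a1, (part_T hy hx k).1 a2⟩
    · rintro ⟨R', hR', L', hL', h1, h2, h3, h4, h5, h6⟩
      refine ⟨TT R', TT L', ?_, ?_, (TT_sub hR').2 h3, T_mem.2 h4, (TT_ne hR').2 h5,
        (hG R' hR' L' hL').1 h6⟩
      · rw [all_TT hR']
        intro y hy hy2
        obtain ⟨a1, a2, a3⟩ := h1 y hy hy2
        exact ⟨T_mem.2 a1, (part_T hy hx k).2 a2, (rf_T hy k).2 a3⟩
      · rw [all_TT hL']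
        intro y hy hy2
        obtain ⟨a1, a2⟩ := h2 y hy hy2
        exact ⟨T_mem.2 a1, (part_T hy hx k).2 a2⟩

/-- the condition of level `f + 1` for final contexts -/
def FC (N k L : ℕ) (G : List ℕ) : Prop :=
  (∀ X < BB N, (∀ a < B N, bit X a → bit L a ∧ ∀ i < k, rfc N i a) →
    ∃ t < B N, bit L t ∧ tightc N k X t) ∧
  (∀ s < B N, bit L s → (∀ i < k + 1, rfc N i s) → ∃ L' < BB N,
    (∀ y < B N, bit L' y → bit L y ∧ partc N k y s) ∧ L' ∈ G)

theorem FP_iff {N f k L : ℕ} (hL : L < BB N) (G : List ℕ)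
    (hG : ∀ L' < BB N, L' ∈ G ↔ FP N f (k + 1) (TT L')) :
    FP N (f + 1) k (TT L) ↔ FC N k L G := by
  unfold FC
  rw [FP]
  refine and_congr ?_ ?_
  · rw [all_sets (N := N) (fun x hx => TT_le hL hx.1)]
    refine forall_congr' fun X => forall_congr' fun hX => ?_
    have e : TT X ⊆ {x ∈ TT L | ∀ i < k, rf i x} ↔
        ∀ a < B N, bit X a → bit L a ∧ ∀ i < k, rfc N i a := by
      have := all_TT hX (P := fun x => x ∈ {x ∈ TT L | ∀ i < k, rf i x})
      refine Iff.trans this (forall_congr' fun a => forall_congr' fun ha => imp_congr_right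
        fun _ => ?_)
      rw [Set.mem_ofPred_eq, T_mem]
      refine and_congr_right fun _ => forall_congr' fun i => imp_congr_right fun _ => ?_
      rw [rf_T ha]
    rw [e, ex_TT hL]
    refine imp_congr_right fun _ => exists_congr fun t => ?_
    rw [tight_T hX]
  · rw [all_TT hL]
    refine forall_congr' fun s => forall_congr' fun hs => imp_congr_right fun _ => ?_
    refine imp_congr (forall_congr' fun i => imp_congr_right fun _ => rf_T hs i) ?_
    constructor
    · rintro ⟨L', h2, h6⟩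
      obtain ⟨L', hL', rfl⟩ := TT_ex N L' fun y hy => TT_le hL (h2 y hy).1
      refine ⟨L', hL', ?_, (hG L' hL').2 h6⟩
      intro y hy hy2
      obtain ⟨a1, a2⟩ := h2 (T y) (T_mem.2 hy2)
      exact ⟨T_mem.1 a1, (part_T hy hs k).1 a2⟩
    · rintro ⟨L', hL', h2, h6⟩
      refine ⟨TT L', ?_, (hG L' hL').1 h6⟩
      rw [all_TT hL']
      intro y hy hy2
      obtain ⟨a1, a2⟩ := h2 y hy hy2
      exact ⟨T_mem.2 a1, (part_T hy hs k).2 a2⟩

/-! ### computability -/

section comput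
variable {α : Type*} [Primcodable α]

attribute [local fun_prop] cpow cdiv cmod

theorem cB {f : α → ℕ} (hf : Computable f) : Computable fun a => B (f a) := by
  unfold B; fun_prop

theorem cBB {f : α → ℕ} (hf : Computable f) : Computable fun a => BB (f a) := by
  unfold BB B; fun_prop

theorem cbc {f g : α → ℕ} (hf : Computable f) (hg : Computable g) :
    Computable fun a => bc (f a) (g a) := by
  unfold bc; fun_prop

theorem cic {f g : α → ℕ} (hf : Computable f) (hg : Computable g) :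
    Computable fun a => ic (f a) (g a) := by
  unfold ic; fun_prop

attribute [local fun_prop] cB cBB cbc cic

theorem pbit {f g : α → ℕ} (hf : Computable f) (hg : Computable g) :
    ComputablePred fun a => bit (f a) (g a) := by
  unfold bit
  exact RE.cp_eq (by fun_prop) (by fun_prop)

theorem ptriv {n k x : α → ℕ} (hn : Computable n) (hk : Computable k) (hx : Computable x) :
    ComputablePred fun a => trivc (n a) (k a) (x a) := by
  unfold trivc
  refine cp_all_lt (p := fun a m => k a ≤ m → ∀ χ < n a + 1, bc m χ ≤ n a → bit (x a) (bc m χ))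
    ?_ (by fun_prop)
  refine cp_imp (RE.cp_le (by fun_prop) (by fun_prop)) ?_
  refine cp_all_lt (p := fun (a : α × ℕ) χ => bc a.2 χ ≤ n a.1 → bit (x a.1) (bc a.2 χ))
    ?_ (by fun_prop)
  exact cp_imp (RE.cp_le (by fun_prop) (by fun_prop)) (pbit (by fun_prop) (by fun_prop))

theorem prf {n k x : α → ℕ} (hn : Computable n) (hk : Computable k) (hx : Computable x) :
    ComputablePred fun a => rfc (n a) (k a) (x a) := by
  unfold rfc
  refine cp_all_lt (p := fun a χ => bit (x a) (bc (k a) χ) → bit (x a) χ) ?_ (by fun_prop)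
  exact cp_imp (pbit (by fun_prop) (by fun_prop)) (pbit (by fun_prop) (by fun_prop))

theorem ppart {n k x y : α → ℕ} (hn : Computable n) (hk : Computable k) (hx : Computable x)
    (hy : Computable y) : ComputablePred fun a => partc (n a) (k a) (x a) (y a) := by
  unfold partc
  refine cp_all_lt (p := fun a χ => bit (x a) (bc (k a) χ) ↔ bit (y a) (bc (k a) χ))
    ?_ (by fun_prop)
  exact cp_iff (pbit (by fun_prop) (by fun_prop)) (pbit (by fun_prop) (by fun_prop))

theorem ptight {n k x t : α → ℕ} (hn : Computable n) (hk : Computable k) (hx : Computable x)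
    (ht : Computable t) : ComputablePred fun a => tightc (n a) (k a) (x a) (t a) := by
  unfold tightc
  refine cp_and ?_ (ptriv (by fun_prop) (by fun_prop) (by fun_prop))
  refine cp_all_lt (p := fun a χ => bc (k a) χ ≤ n a → (bit (t a) (bc (k a) χ) ↔
    ∀ y < B (n a), bit (x a) y → bit y χ ∧ bit y (bc (k a) χ))) ?_ (by fun_prop)
  refine cp_imp (RE.cp_le (by fun_prop) (by fun_prop)) ?_
  refine cp_iff (pbit (by fun_prop) (by fun_prop)) ?_
  refine cp_all_lt (p := fun (a : α × ℕ) y => bit (x a.1) y → bit y a.2 ∧ bit y (bc (k a.1) a.2))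
    ?_ (by fun_prop)
  exact cp_imp (pbit (by fun_prop) (by fun_prop))
    (cp_and (pbit (by fun_prop) (by fun_prop)) (pbit (by fun_prop) (by fun_prop)))

theorem pvalid {n x : α → ℕ} (hn : Computable n) (hx : Computable x) :
    ComputablePred fun a => validc (n a) (x a) := by
  unfold validc
  refine cp_and (cp_not (pbit (by fun_prop) (by fun_prop))) ?_
  refine cp_all_lt (p := fun a u => ∀ b < n a + 1, ic u b ≤ n a →
    (bit (x a) (ic u b) ↔ (bit (x a) u → bit (x a) b))) ?_ (by fun_prop)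
  refine cp_all_lt (p := fun (a : α × ℕ) b => ic a.2 b ≤ n a.1 →
    (bit (x a.1) (ic a.2 b) ↔ (bit (x a.1) a.2 → bit (x a.1) b))) ?_ (by fun_prop)
  refine cp_imp (RE.cp_le (by fun_prop) (by fun_prop)) ?_
  exact cp_iff (pbit (by fun_prop) (by fun_prop))
    (cp_imp (pbit (by fun_prop) (by fun_prop)) (pbit (by fun_prop) (by fun_prop)))

/-- inclusion-like conditions -/
theorem pall {n : α → ℕ} (hn : Computable n) {p : α → ℕ → Prop}
    (hp : ComputablePred fun x : α × ℕ => p x.1 x.2) :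
    ComputablePred fun a => ∀ y < B (n a), p a y := cp_all_lt hp (by fun_prop)

theorem pex {n : α → ℕ} (hn : Computable n) {p : α → ℕ → Prop}
    (hp : ComputablePred fun x : α × ℕ => p x.1 x.2) :
    ComputablePred fun a => ∃ y < B (n a), p a y := cp_ex_lt hp (by fun_prop)

theorem pALL {n : α → ℕ} (hn : Computable n) {p : α → ℕ → Prop}
    (hp : ComputablePred fun x : α × ℕ => p x.1 x.2) :
    ComputablePred fun a => ∀ y < BB (n a), p a y := cp_all_lt hp (by fun_prop)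

theorem pEX {n : α → ℕ} (hn : Computable n) {p : α → ℕ → Prop}
    (hp : ComputablePred fun x : α × ℕ => p x.1 x.2) :
    ComputablePred fun a => ∃ y < BB (n a), p a y := cp_ex_lt hp (by fun_prop)

theorem pRC {n k r l : α → ℕ} {G : α → List ℕ} (hn : Computable n) (hk : Computable k)
    (hr : Computable r) (hl : Computable l) (hG : Computable G) :
    ComputablePred fun a => RC (n a) (k a) (r a) (l a) (G a) := by
  unfold RC
  refine cp_and ?_ (cp_and ?_ (cp_and ?_ ?_))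
  · refine pALL hn (p := fun a X => (∀ u < B (n a), bit X u → bit (r a) u) →
      ∃ t < B (n a), bit (l a) t ∧ tightc (n a) (k a) X t) ?_
    refine cp_imp ?_ ?_
    · refine pall (n := fun x : α × ℕ => n x.1) (by fun_prop)
        (p := fun (x : α × ℕ) u => bit x.2 u → bit (r x.1) u) ?_
      exact cp_imp (pbit (by fun_prop) (by fun_prop)) (pbit (by fun_prop) (by fun_prop))
    · refine pex (n := fun x : α × ℕ => n x.1) (by fun_prop)
        (p := fun (x : α × ℕ) t => bit (l x.1) t ∧ tightc (n x.1) (k x.1) x.2 t) ?_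
      exact cp_and (pbit (by fun_prop) (by fun_prop))
        (ptight (by fun_prop) (by fun_prop) (by fun_prop) (by fun_prop))
  · refine pall hn (p := fun a x => bit (l a) x → ∀ χ < n a + 1, bc (k a) χ ≤ n a →
      ¬ bit x (bc (k a) χ) → ∃ x' < B (n a), bit (r a) x' ∧ (¬ bit x' χ ∧ bit x' (bc (k a) χ) ∧
      ∀ χ' < n a + 1, bit x (bc (k a) χ') → bit x' χ' ∧ bit x' (bc (k a) χ'))) ?_
    refine cp_imp (pbit (by fun_prop) (by fun_prop)) ?_
    refine cp_all_lt (p := fun (a : α × ℕ) χ => bc (k a.1) χ ≤ n a.1 →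
      ¬ bit a.2 (bc (k a.1) χ) → ∃ x' < B (n a.1), bit (r a.1) x' ∧
      (¬ bit x' χ ∧ bit x' (bc (k a.1) χ) ∧
      ∀ χ' < n a.1 + 1, bit a.2 (bc (k a.1) χ') → bit x' χ' ∧ bit x' (bc (k a.1) χ')))
      ?_ (by fun_prop)
    refine cp_imp (RE.cp_le (by fun_prop) (by fun_prop)) ?_
    refine cp_imp (cp_not (pbit (by fun_prop) (by fun_prop))) ?_
    refine pex (n := fun x : (α × ℕ) × ℕ => n x.1.1) (by fun_prop)
      (p := fun (a : (α × ℕ) × ℕ) x' => bit (r a.1.1) x' ∧
      (¬ bit x' a.2 ∧ bit x' (bc (k a.1.1) a.2) ∧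
      ∀ χ' < n a.1.1 + 1, bit a.1.2 (bc (k a.1.1) χ') → bit x' χ' ∧ bit x' (bc (k a.1.1) χ'))) ?_
    refine cp_and (pbit (by fun_prop) (by fun_prop)) (cp_and (cp_not (pbit (by fun_prop)
      (by fun_prop))) (cp_and (pbit (by fun_prop) (by fun_prop)) ?_))
    refine cp_all_lt (p := fun (a : ((α × ℕ) × ℕ) × ℕ) χ' =>
      bit a.1.1.2 (bc (k a.1.1.1) χ') → bit a.2 χ' ∧ bit a.2 (bc (k a.1.1.1) χ')) ?_ (by fun_prop)
    exact cp_imp (pbit (by fun_prop) (by fun_prop))
      (cp_and (pbit (by fun_prop) (by fun_prop)) (pbit (by fun_prop) (by fun_prop)))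
  · refine cp_imp ?_ ?_
    · exact pex hn (p := fun a u => bit (r a) u) (pbit (by fun_prop) (by fun_prop))
    · refine pex hn (p := fun a b => bit (r a) b ∧ trivc (n a) (k a) b) ?_
      exact cp_and (pbit (by fun_prop) (by fun_prop))
        (ptriv (by fun_prop) (by fun_prop) (by fun_prop))
  · refine pall hn (p := fun a x => bit (l a) x → ¬ trivc (n a) (k a + 1) x →
      ∃ R' < BB (n a), ∃ L' < BB (n a),
      (∀ y < B (n a), bit R' y → bit (r a) y ∧ partc (n a) (k a) y x ∧ rfc (n a) (k a) y) ∧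
      (∀ y < B (n a), bit L' y → bit (l a) y ∧ partc (n a) (k a) y x) ∧
      (∀ y < B (n a), bit R' y → bit L' y) ∧ bit L' x ∧ (∃ u < B (n a), bit R' u) ∧
      Nat.pair R' L' ∈ G a) ?_
    refine cp_imp (pbit (by fun_prop) (by fun_prop)) ?_
    refine cp_imp (cp_not (ptriv (by fun_prop) (by fun_prop) (by fun_prop))) ?_
    refine pEX (n := fun x : α × ℕ => n x.1) (by fun_prop)
      (p := fun (a : α × ℕ) R' => ∃ L' < BB (n a.1),
      (∀ y < B (n a.1), bit R' y → bit (r a.1) y ∧ partc (n a.1) (k a.1) y a.2 ∧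
        rfc (n a.1) (k a.1) y) ∧
      (∀ y < B (n a.1), bit L' y → bit (l a.1) y ∧ partc (n a.1) (k a.1) y a.2) ∧
      (∀ y < B (n a.1), bit R' y → bit L' y) ∧ bit L' a.2 ∧ (∃ u < B (n a.1), bit R' u) ∧
      Nat.pair R' L' ∈ G a.1) ?_
    refine pEX (n := fun x : (α × ℕ) × ℕ => n x.1.1) (by fun_prop)
      (p := fun (a : (α × ℕ) × ℕ) L' =>
      (∀ y < B (n a.1.1), bit a.2 y → bit (r a.1.1) y ∧ partc (n a.1.1) (k a.1.1) y a.1.2 ∧
        rfc (n a.1.1) (k a.1.1) y) ∧
      (∀ y < B (n a.1.1), bit L' y → bit (l a.1.1) y ∧ partc (n a.1.1) (k a.1.1) y a.1.2) ∧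
      (∀ y < B (n a.1.1), bit a.2 y → bit L' y) ∧ bit L' a.1.2 ∧
      (∃ u < B (n a.1.1), bit a.2 u) ∧ Nat.pair a.2 L' ∈ G a.1.1) ?_
    refine cp_and ?_ (cp_and ?_ (cp_and ?_ (cp_and (pbit (by fun_prop) (by fun_prop))
      (cp_and ?_ (RE.cp_mem (by fun_prop) (by fun_prop))))))
    · refine pall (n := fun x : ((α × ℕ) × ℕ) × ℕ => n x.1.1.1) (by fun_prop)
        (p := fun (a : ((α × ℕ) × ℕ) × ℕ) y => bit a.1.2 y → bit (r a.1.1.1) y ∧
        partc (n a.1.1.1) (k a.1.1.1) y a.1.1.2 ∧ rfc (n a.1.1.1) (k a.1.1.1) y) ?_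
      refine cp_imp (pbit (by fun_prop) (by fun_prop)) (cp_and (pbit (by fun_prop) (by fun_prop))
        (cp_and (ppart (by fun_prop) (by fun_prop) (by fun_prop) (by fun_prop))
        (prf (by fun_prop) (by fun_prop) (by fun_prop))))
    · refine pall (n := fun x : ((α × ℕ) × ℕ) × ℕ => n x.1.1.1) (by fun_prop)
        (p := fun (a : ((α × ℕ) × ℕ) × ℕ) y => bit a.2 y → bit (l a.1.1.1) y ∧
        partc (n a.1.1.1) (k a.1.1.1) y a.1.1.2) ?_
      refine cp_imp (pbit (by fun_prop) (by fun_prop)) (cp_and (pbit (by fun_prop) (by fun_prop))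
        (ppart (by fun_prop) (by fun_prop) (by fun_prop) (by fun_prop)))
    · refine pall (n := fun x : ((α × ℕ) × ℕ) × ℕ => n x.1.1.1) (by fun_prop)
        (p := fun (a : ((α × ℕ) × ℕ) × ℕ) y => bit a.1.2 y → bit a.2 y) ?_
      exact cp_imp (pbit (by fun_prop) (by fun_prop)) (pbit (by fun_prop) (by fun_prop))
    · refine pex (n := fun x : ((α × ℕ) × ℕ) × ℕ => n x.1.1.1) (by fun_prop)
        (p := fun (a : ((α × ℕ) × ℕ) × ℕ) y => bit a.1.2 y) ?_
      exact pbit (by fun_prop) (by fun_prop)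

theorem pFC {n k l : α → ℕ} {G : α → List ℕ} (hn : Computable n) (hk : Computable k)
    (hl : Computable l) (hG : Computable G) :
    ComputablePred fun a => FC (n a) (k a) (l a) (G a) := by
  unfold FC
  refine cp_and ?_ ?_
  · refine pALL hn (p := fun a X => (∀ u < B (n a), bit X u → bit (l a) u ∧ ∀ i < k a,
      rfc (n a) i u) → ∃ t < B (n a), bit (l a) t ∧ tightc (n a) (k a) X t) ?_
    refine cp_imp ?_ ?_
    · refine pall (n := fun x : α × ℕ => n x.1) (by fun_prop)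
        (p := fun (x : α × ℕ) u => bit x.2 u → bit (l x.1) u ∧ ∀ i < k x.1, rfc (n x.1) i u) ?_
      refine cp_imp (pbit (by fun_prop) (by fun_prop)) (cp_and (pbit (by fun_prop) (by fun_prop))
        ?_)
      refine cp_all_lt (p := fun (x : (α × ℕ) × ℕ) i => rfc (n x.1.1) i x.2) ?_ (by fun_prop)
      exact prf (by fun_prop) (by fun_prop) (by fun_prop)
    · refine pex (n := fun x : α × ℕ => n x.1) (by fun_prop)
        (p := fun (x : α × ℕ) t => bit (l x.1) t ∧ tightc (n x.1) (k x.1) x.2 t) ?_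
      exact cp_and (pbit (by fun_prop) (by fun_prop))
        (ptight (by fun_prop) (by fun_prop) (by fun_prop) (by fun_prop))
  · refine pall hn (p := fun a s => bit (l a) s → (∀ i < k a + 1, rfc (n a) i s) →
      ∃ L' < BB (n a), (∀ y < B (n a), bit L' y → bit (l a) y ∧ partc (n a) (k a) y s) ∧
      L' ∈ G a) ?_
    refine cp_imp (pbit (by fun_prop) (by fun_prop)) (cp_imp ?_ ?_)
    · refine cp_all_lt (p := fun (x : α × ℕ) i => rfc (n x.1) i x.2) ?_ (by fun_prop)
      exact prf (by fun_prop) (by fun_prop) (by fun_prop)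
    · refine pEX (n := fun x : α × ℕ => n x.1) (by fun_prop)
        (p := fun (a : α × ℕ) L' => (∀ y < B (n a.1), bit L' y → bit (l a.1) y ∧
          partc (n a.1) (k a.1) y a.2) ∧ L' ∈ G a.1) ?_
      refine cp_and ?_ (RE.cp_mem (by fun_prop) (by fun_prop))
      refine pall (n := fun x : (α × ℕ) × ℕ => n x.1.1) (by fun_prop)
        (p := fun (a : (α × ℕ) × ℕ) y => bit a.2 y → bit (l a.1.1) y ∧
        partc (n a.1.1) (k a.1.1) y a.1.2) ?_
      exact cp_imp (pbit (by fun_prop) (by fun_prop)) (cp_and (pbit (by fun_prop) (by fun_prop))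
        (ppart (by fun_prop) (by fun_prop) (by fun_prop) (by fun_prop)))

end comput

attribute [local fun_prop] cpow cdiv cmod cB cBB cbc cic

def M1 (N : ℕ) : ℕ := BB N * BB N

theorem pair_lt {N R L : ℕ} (hR : R < BB N) (hL : L < BB N) : Nat.pair R L < M1 N := by
  have h := Nat.pair_lt_max_add_one_sq R L
  have h2 : max R L + 1 ≤ BB N := by omega
  have h3 : (max R L + 1) ^ 2 ≤ BB N * BB N := by
    rw [pow_two]; exact Nat.mul_le_mul h2 h2
  exact lt_of_lt_of_le h h3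

def Q1 (N f p : ℕ) : Prop := (p.unpair.1 < BB N ∧ p.unpair.2 < BB N) ∧
  RP N f (N + 1 - f) (TT p.unpair.1) (TT p.unpair.2)

def Q2 (N f p : ℕ) : Prop := FP N f (N + 1 - f) (TT p)

theorem cpQ1 : ComputablePred fun x : ℕ × ℕ => x.2 < M1 x.1 ∧ Q1 x.1 (x.1 + 1) x.2 := by
  refine table (M := M1) (by unfold M1; fun_prop)
    (A := fun x : ℕ × ℕ => x.2.unpair.1 < BB x.1 ∧ x.2.unpair.2 < BB x.1) ?_
    (C := fun x : ℕ × ℕ × ℕ × List ℕ =>
      (x.2.2.1.unpair.1 < BB x.1 ∧ x.2.2.1.unpair.2 < BB x.1) ∧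
      RC x.1 (x.1 - x.2.1) x.2.2.1.unpair.1 x.2.2.1.unpair.2 x.2.2.2) ?_ (Q := Q1) ?_ ?_
  · exact cp_and (RE.cp_lt (by fun_prop) (by fun_prop)) (RE.cp_lt (by fun_prop) (by fun_prop))
  · exact cp_and (cp_and (RE.cp_lt (by fun_prop) (by fun_prop))
      (RE.cp_lt (by fun_prop) (by fun_prop)))
      (pRC (by fun_prop) (by fun_prop) (by fun_prop) (by fun_prop) (by fun_prop))
  · intro N p _
    unfold Q1
    simp only [RP, and_true]
  · intro N f p g hf _ hg
    unfold Q1
    have e : N + 1 - (f + 1) = N - f := by omega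
    rw [e]
    refine and_congr_right fun hp => ?_
    refine RP_iff hp.1 hp.2 g ?_
    intro R' hR' L' hL'
    rw [hg _ (pair_lt hR' hL')]
    unfold Q1
    have e2 : N + 1 - f = N - f + 1 := by omega
    rw [Nat.unpair_pair, e2]
    simp only [hR', hL', and_self, true_and]

theorem cpQ2 : ComputablePred fun x : ℕ × ℕ => x.2 < BB x.1 ∧ Q2 x.1 (x.1 + 1) x.2 := by
  refine table (M := BB) (by fun_prop)
    (A := fun x : ℕ × ℕ => ∃ a < B x.1, bit x.2 a) ?_
    (C := fun x : ℕ × ℕ × ℕ × List ℕ => FC x.1 (x.1 - x.2.1) x.2.2.1 x.2.2.2) ?_ (Q := Q2) ?_ ?_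
  · exact pex (n := fun x : ℕ × ℕ => x.1) (by fun_prop) (p := fun (x : ℕ × ℕ) a => bit x.2 a)
      (pbit (by fun_prop) (by fun_prop))
  · exact pFC (by fun_prop) (by fun_prop) (by fun_prop) (by fun_prop)
  · intro N p hp
    unfold Q2
    rw [FP]
    exact TT_ne hp
  · intro N f p g hf hp hg
    unfold Q2
    have e : N + 1 - (f + 1) = N - f := by omega
    rw [e]
    refine FP_iff hp g ?_
    intro L' hL'
    rw [hg _ hL']
    unfold Q2
    have e2 : N + 1 - f = N - f + 1 := by omega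
    rw [e2]

theorem crit_iff (φ ψ : ℕ) : Crit φ ψ ↔ ∃ S < BB (max φ ψ),
    (∀ x < B (max φ ψ), bit S x → validc (max φ ψ) x) ∧
    (Nat.pair S S < M1 (max φ ψ) ∧ Q1 (max φ ψ) (max φ ψ + 1) (Nat.pair S S)) ∧
    (S < BB (max φ ψ) ∧ Q2 (max φ ψ) (max φ ψ + 1) S) ∧
    (∀ x < B (max φ ψ), bit S x → bit x φ) ∧ ∃ x < B (max φ ψ), bit S x ∧ ¬ bit x ψ := by
  unfold Crit
  rw [ex_sets (N := max φ ψ) (fun Θ h x hx => (h.1 x hx).1)]
  refine exists_congr fun S => and_congr_right fun hS => ?_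
  rw [all_TT hS, all_TT hS, ex_TT hS]
  refine and_congr ?_ (and_congr ?_ (and_congr ?_ Iff.rfl))
  · exact forall_congr' fun x => forall_congr' fun hx => imp_congr_right fun _ => valid_T hx
  · unfold Q1
    rw [Nat.unpair_pair, Nat.sub_self]
    simp only [hS, pair_lt hS hS, and_self, true_and]
  · unfold Q2
    rw [Nat.sub_self]
    simp only [hS, true_and]

theorem comp : Pool.Agent.W897.GA.S_comp := by
  unfold S_comp
  refine cp_of_iff ?_ fun x : ℕ × ℕ => crit_iff x.1 x.2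
  refine cp_ex_lt (p := fun (x : ℕ × ℕ) S =>
    (∀ y < B (max x.1 x.2), bit S y → validc (max x.1 x.2) y) ∧
    (Nat.pair S S < M1 (max x.1 x.2) ∧ Q1 (max x.1 x.2) (max x.1 x.2 + 1) (Nat.pair S S)) ∧
    (S < BB (max x.1 x.2) ∧ Q2 (max x.1 x.2) (max x.1 x.2 + 1) S) ∧
    (∀ y < B (max x.1 x.2), bit S y → bit y x.1) ∧
    ∃ y < B (max x.1 x.2), bit S y ∧ ¬ bit y x.2) ?_ (by fun_prop)
  refine cp_and ?_ (cp_and ?_ (cp_and ?_ (cp_and ?_ ?_)))
  · refine pall (n := fun x : (ℕ × ℕ) × ℕ => max x.1.1 x.1.2) (by fun_prop)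
      (p := fun (x : (ℕ × ℕ) × ℕ) y => bit x.2 y → validc (max x.1.1 x.1.2) y) ?_
    exact cp_imp (pbit (by fun_prop) (by fun_prop)) (pvalid (by fun_prop) (by fun_prop))
  · exact RE.cp_comp cpQ1 (f := fun x : (ℕ × ℕ) × ℕ => (max x.1.1 x.1.2, Nat.pair x.2 x.2))
      (by fun_prop)
  · exact RE.cp_comp cpQ2 (f := fun x : (ℕ × ℕ) × ℕ => (max x.1.1 x.1.2, x.2)) (by fun_prop)
  · refine pall (n := fun x : (ℕ × ℕ) × ℕ => max x.1.1 x.1.2) (by fun_prop)
      (p := fun (x : (ℕ × ℕ) × ℕ) y => bit x.2 y → bit y x.1.1) ?_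
    exact cp_imp (pbit (by fun_prop) (by fun_prop)) (pbit (by fun_prop) (by fun_prop))
  · refine pex (n := fun x : (ℕ × ℕ) × ℕ => max x.1.1 x.1.2) (by fun_prop)
      (p := fun (x : (ℕ × ℕ) × ℕ) y => bit x.2 y ∧ ¬ bit y x.1.2) ?_
    exact cp_and (pbit (by fun_prop) (by fun_prop)) (cp_not (pbit (by fun_prop) (by fun_prop)))

end Pool.Agent.W960.GA
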